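import Pool.Agent.Y854.CO.Main

set_option autoImplicit false

/-! The cycles of the `3x+1` map on the integers and the sparse sequences `⌊α n ^ c⌋`, for every real
`c > 1` (for example `⌊α n²⌋`) and all `α` outside a set of dimension less than one which does not depend
on the invariant set (the basin of attraction of a cycle, for example): every invariant set has along the
sequence its natural density, uniformly in the invariant set; the least terms of the trajectories have a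
bounded moment; a further cycle would attract a positive proportion of the terms of the sequence or of
their negatives, so Q1 can be decided on the sequence. -/

namespace Pool.Agent.Results.MP_edb5be_nt.BasinsAlongPowers

open Finset Filter Topology

/-- the `3x+1` map on the integers -/
def T (x : ℤ) : ℤ := if x % 2 = 0 then x / 2 else (3 * x + 1) / 2

/-- `S` is invariant: `x ∈ S` if and only if `T x ∈ S`. -/
def Invariant (S : Set ℤ) : Prop := ∀ x : ℤ, x ∈ S ↔ T x ∈ S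

/-- `Z` is a cycle of `T`. -/
def IsCycle (Z : Finset ℤ) : Prop :=
  ∃ (x : ℤ) (p : ℕ), 1 ≤ p ∧ T^[p] x = x ∧ Z = (Finset.range p).image fun i => T^[i] x

/-- the five known cycles -/
def known : Set (Finset ℤ) :=
  {{1, 2}, {0}, {-1}, {-5, -7, -10}, {-17, -25, -37, -55, -82, -41, -61, -91, -136, -68, -34}}

/-- The trajectory of `x` enters a cycle which is not one of the five known ones. -/
def Unknown (x : ℤ) : Prop := ∃ Z : Finset ℤ, IsCycle Z ∧ Z ∉ known ∧ ∃ k : ℕ, T^[k] x ∈ Z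

/-- Among the integers of sign `s` the set `S` has natural density `δ`. -/
def HasDensity (s : ℤ) (S : Set ℤ) (δ : ℝ) : Prop :=
  Tendsto (fun N : ℕ => ({n : ℤ | 0 < s * n ∧ s * n ≤ N ∧ n ∈ S}.ncard : ℝ) / N) atTop (𝓝 δ)

/-- the least absolute value of a term of the trajectory of `x` -/
noncomputable def least (x : ℤ) : ℕ := sInf {m : ℕ | ∃ k : ℕ, (T^[k] x).natAbs = m}

open Pool.Agent.Y854.CO (ind DS)

theorem T_eq : T = Pool.Agent.H499R2.ND.Td 1 := rfl

theorem least_eq : least = Pool.Agent.Y854.CO.least := rfl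

theorem dens_iff {s : ℤ} (hs : s = 1 ∨ s = -1) (S : Set ℤ) (δ : ℝ) : HasDensity s S δ ↔ DS s S δ := by
  unfold HasDensity DS
  simp only [Pool.Agent.Y854.CO.ncard_eq hs]

theorem card_eq (s : ℤ) (S : Set ℤ) (m : ℕ → ℕ) (N : ℕ) :
    ({n : ℕ | 1 ≤ n ∧ n ≤ N ∧ s * (m n : ℤ) ∈ S}.ncard : ℝ) = ∑ n ∈ Icc 1 N, ind s S (m n) := by
  classical
  have h : {n : ℕ | 1 ≤ n ∧ n ≤ N ∧ s * (m n : ℤ) ∈ S} =
      (((Icc 1 N).filter (fun n => s * (m n : ℤ) ∈ S) : Finset ℕ) : Set ℕ) := by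
    ext n
    simp only [Set.mem_ofPred_eq, coe_filter, mem_Icc]
    tauto
  rw [h, Set.ncard_coe_finset]
  unfold ind
  rw [Finset.sum_boole]

/-- the trajectories which enter unknown cycles form an invariant set -/
theorem unknown_inv : Invariant {x | Unknown x} := by
  intro x
  constructor
  · rintro ⟨Z, hZ, hk, k, hx⟩
    refine ⟨Z, hZ, hk, k, ?_⟩
    rw [← Function.iterate_succ_apply, Function.iterate_succ_apply']
    obtain ⟨y, p, hp, hy, rfl⟩ := hZ
    rw [mem_image] at hx ⊢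
    obtain ⟨i, hi, hi2⟩ := hx
    rw [mem_range] at hi
    rw [← hi2, ← Function.iterate_succ_apply' T i y]
    rcases Nat.lt_or_ge (i + 1) p with h | h
    · exact ⟨i + 1, by rwa [mem_range], rfl⟩
    · have : i + 1 = p := by omega
      exact ⟨0, by rw [mem_range]; omega, by rw [Nat.succ_eq_add_one, this, hy]; rfl⟩
  · rintro ⟨Z, hZ, hk, k, hx⟩
    refine ⟨Z, hZ, hk, k + 1, ?_⟩
    rwa [Function.iterate_succ_apply]

/-- **Basins of cycles along sparse sequences.** For every `c > 1` there are `θ > 0` and a set `E` with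
`dim E < 1` such that for all `α > 0` outside `E` and both signs `s`:
(1) for every `ε > 0` and all large `N`, for ALL invariant sets `S`, of natural density `δ` among the
integers of sign `s` (it exists), the proportion of the `n ≤ N` with `s ⌊α n ^ c⌋ ∈ S` differs from `δ` by
at most `ε`;
(2) the sum over `n ≤ N` of the `θ`-th power of the least absolute value in the trajectory of
`s ⌊α n ^ c⌋` is at most `C N`, so at most `C N / y ^ θ` of these trajectories stay above `y`;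
(3) every cycle of `T` is one of the five known cycles if and only if the lower density of the `n` such
that the trajectory of `⌊α n ^ c⌋` or of `-⌊α n ^ c⌋` enters another cycle is zero. -/
theorem result (c : ℝ) (hc : 1 < c) : ∃ θ : ℝ, 0 < θ ∧ ∃ E : Set ℝ, dimH E < 1 ∧ ∀ α : ℝ, 0 < α → α ∉ E →
    (∀ s : ℤ, (s = 1 ∨ s = -1) →
      (∀ S : Set ℤ, Invariant S → ∃ δ : ℝ, HasDensity s S δ) ∧
      (∀ ε : ℝ, 0 < ε → ∃ N₀ : ℕ, ∀ N : ℕ, N₀ ≤ N → ∀ S : Set ℤ, Invariant S → ∀ δ : ℝ, HasDensity s S δ →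
        |({n : ℕ | 1 ≤ n ∧ n ≤ N ∧ s * (⌊α * (n : ℝ) ^ c⌋₊ : ℤ) ∈ S}.ncard : ℝ) / N - δ| ≤ ε) ∧
      ∃ C : ℝ, ∀ N : ℕ, ∑ n ∈ Icc 1 N, (least (s * (⌊α * (n : ℝ) ^ c⌋₊ : ℤ)) : ℝ) ^ θ ≤ C * N) ∧
    ((∀ Z : Finset ℤ, IsCycle Z → Z ∈ known) ↔
      ∀ ε : ℝ, 0 < ε → ∃ᶠ N : ℕ in atTop, ({n : ℕ | 1 ≤ n ∧ n ≤ N ∧
        (Unknown (⌊α * (n : ℝ) ^ c⌋₊ : ℤ) ∨ Unknown (-(⌊α * (n : ℝ) ^ c⌋₊ : ℤ)))}.ncard : ℝ) ≤ ε * N) := by
  classical
  obtain ⟨θ, hθ, E, hE, h⟩ := Pool.Agent.Y854.CO.main c hc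
  refine ⟨θ, hθ, E, hE, fun α hα hαE => ⟨fun s hs => ⟨fun S hS => ?_, fun ε hε => ?_, ?_⟩, ?_, ?_⟩⟩
  · obtain ⟨δ, hδ⟩ := Pool.Agent.Y854.CO.DS_exists hs (S := S) hS
    exact ⟨δ, (dens_iff hs S δ).mpr hδ⟩
  · obtain ⟨N0, hN0⟩ := (h α hα hαE s hs).1 ε hε
    refine ⟨N0, fun N hN S hS δ hδ => ?_⟩
    rw [card_eq s S (fun n => ⌊α * (n : ℝ) ^ c⌋₊)]
    exact hN0 N hN S hS δ ((dens_iff hs S δ).mp hδ)
  · obtain ⟨C, _, hC⟩ := (h α hα hαE s hs).2
    exact ⟨C, hC⟩
  · -- no unknown cycles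
    intro hQ ε hε
    apply Filter.Eventually.frequently
    filter_upwards with N
    have h0 : ∀ x : ℤ, ¬ Unknown x := by
      rintro x ⟨Z, hZ, hk, -⟩
      exact hk (hQ Z hZ)
    have h1 : {n : ℕ | 1 ≤ n ∧ n ≤ N ∧
        (Unknown (⌊α * (n : ℝ) ^ c⌋₊ : ℤ) ∨ Unknown (-(⌊α * (n : ℝ) ^ c⌋₊ : ℤ)))} = ∅ := by
      apply Set.eq_empty_of_forall_notMem
      rintro n ⟨-, -, h | h⟩
      · exact h0 _ h
      · exact h0 _ h
    rw [h1, Set.ncard_empty, Nat.cast_zero]
    positivity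
  · -- an unknown cycle attracts a positive proportion
    intro hfr
    by_contra hcon
    push Not at hcon
    obtain ⟨Z, hZ, hk⟩ := hcon
    have hZ' := hZ
    obtain ⟨x, p, hp, hx, hZeq⟩ := hZ'
    have hxZ : x ∈ Z := by
      rw [hZeq, mem_image]
      exact ⟨0, by rw [mem_range]; omega, rfl⟩
    have hU : Unknown x := ⟨Z, hZ, hk, 0, hxZ⟩
    have hx0 : x ≠ 0 := by
      rintro rfl
      apply hk
      have hT0 : ∀ i : ℕ, T^[i] 0 = 0 := by
        intro i
        induction i with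
        | zero => rfl
        | succ i ih => rw [Function.iterate_succ_apply]; exact ih
      have hZ0 : Z = {0} := by
        rw [hZeq]
        ext z
        rw [mem_image, mem_singleton]
        constructor
        · rintro ⟨i, -, hi⟩
          rw [← hi, hT0]
        · rintro rfl
          exact ⟨0, by rw [mem_range]; omega, rfl⟩
      rw [hZ0]
      unfold known
      simp
    obtain ⟨s, hs, hsx⟩ : ∃ s : ℤ, (s = 1 ∨ s = -1) ∧ 0 < s * x := by
      rcases lt_or_gt_of_ne hx0 with h1 | h1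
      · exact ⟨-1, Or.inr rfl, by omega⟩
      · exact ⟨1, Or.inl rfl, by omega⟩
    obtain ⟨δ, hδ⟩ := Pool.Agent.Y854.CO.DS_exists hs (S := {x | Unknown x}) unknown_inv
    have hδ0 := Pool.Agent.Y854.CO.DS_pos hs (S := {x | Unknown x}) unknown_inv hδ (a := x) hU hsx
    obtain ⟨N0, hN0⟩ := (h α hα hαE s hs).1 (δ / 2) (by positivity)
    have hfr2 := hfr (δ / 4) (by positivity)
    rw [Filter.frequently_atTop] at hfr2
    obtain ⟨N, hN, hle⟩ := hfr2 (max N0 1)
    have hNp : (0 : ℝ) < N := by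
      have : 1 ≤ N := (le_max_right _ _).trans hN
      exact_mod_cast this
    have h1 := hN0 N ((le_max_left _ _).trans hN) {x | Unknown x} unknown_inv δ hδ
    rw [← card_eq s {x | Unknown x} (fun n => ⌊α * (n : ℝ) ^ c⌋₊), abs_le] at h1
    have h2 := h1.1
    rw [le_sub_iff_add_le, le_div_iff₀ hNp] at h2
    have h3 : {n : ℕ | 1 ≤ n ∧ n ≤ N ∧ s * ((fun n : ℕ => ⌊α * (n : ℝ) ^ c⌋₊) n : ℤ) ∈ {x | Unknown x}}.ncard ≤
        {n : ℕ | 1 ≤ n ∧ n ≤ N ∧
          (Unknown (⌊α * (n : ℝ) ^ c⌋₊ : ℤ) ∨ Unknown (-(⌊α * (n : ℝ) ^ c⌋₊ : ℤ)))}.ncard := by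
      apply Set.ncard_le_ncard
      · rintro n ⟨h4, h5, h6⟩
        refine ⟨h4, h5, ?_⟩
        rcases hs with rfl | rfl
        · left
          rw [one_mul] at h6
          exact h6
        · right
          rw [neg_one_mul] at h6
          exact h6
      · apply (Set.finite_Icc 1 N).subset
        rintro n ⟨h4, h5, -⟩
        exact ⟨h4, h5⟩
    have h4 : (({n : ℕ | 1 ≤ n ∧ n ≤ N ∧ s * ((fun n : ℕ => ⌊α * (n : ℝ) ^ c⌋₊) n : ℤ) ∈ {x | Unknown x}}.ncard : ℕ) : ℝ) ≤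
        (({n : ℕ | 1 ≤ n ∧ n ≤ N ∧
          (Unknown (⌊α * (n : ℝ) ^ c⌋₊ : ℤ) ∨ Unknown (-(⌊α * (n : ℝ) ^ c⌋₊ : ℤ)))}.ncard : ℕ) : ℝ) := by
      exact_mod_cast h3
    nlinarith

end Pool.Agent.Results.MP_edb5be_nt.BasinsAlongPowers
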