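import Pool.Agent.Y55.DS.Dens

set_option autoImplicit false

/-!
# The basins of the cycles of the 3x+1 map and digits in odd bases

Let `F` be a bounded function on the integers that has the same value at any two integers whose
trajectories under the 3x+1 map `T` are at some time at the same point, for example the indicator
function of a union of basins of cycles. Then `F` is orthogonal, with a power saving which is uniform
in `F` and in the frequency `β`, to the functions `e(β n) f 1 n ⋯ f k n`, where the `f i` are strongly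
multiplicative functions of the digits of `n` in pairwise coprime odd bases `q i`, not all characters:
e.g. `f n = e(α s(n))` with `s` the sum of the digits and `(q - 1) α` not an integer, or `f n = e(α r(n))`
with `r` the number of the digits equal to a given digit.

So the theorem of Gelfond, Besineau and Kim on the joint distribution in residue classes of the sums of
digits (and of all strongly additive functions) in pairwise coprime bases holds, for odd bases, inside
every such union of basins, with a power saving which does not depend on the basins.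

Method. For fixed `t` and `a` the integers `n ≤ N` whose first `t` iterates have `a` odd terms are
divided into the fibres of `T ^ t`, on which `F` is constant. By Cauchy-Schwarz one needs, for each
`h ≤ R 2 ^ t / 3 ^ a`, a bound for the correlation of `f n` and `f (n + h)` for `n` in residue classes
modulo `2 ^ t`. As the bases are odd the digits are equidistributed in these classes, and the correlation
is a product of matrices, one for each digit of `h`; each block `11` in `h` gives a constant factor `< 1`.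
The product of the number of the fibres and the range of `h` is about `N`, for each `a`. So every saving
on average over `h` is a saving for the sum.
-/

namespace Pool.Agent.Results.MP_edb5be_nt.DigitalSequences

open Filter Topology

/-- The 3x+1 map on the integers. -/
def T (x : ℤ) : ℤ := if x % 2 = 0 then x / 2 else (3 * x + 1) / 2

/-- `S` is invariant under `T` and its inverse, for example the set of the integers whose trajectory
enters a given cycle. -/
def Invariant (S : Set ℤ) : Prop := ∀ x : ℤ, x ∈ S ↔ T x ∈ S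

/-- Among the integers of sign `s` the set `S` has natural density `δ`. -/
def HasDensity (s : ℤ) (S : Set ℤ) (δ : ℝ) : Prop :=
  Tendsto (fun N : ℕ => ({n : ℤ | 0 < s * n ∧ s * n ≤ N ∧ n ∈ S}.ncard : ℝ) / N) atTop (𝓝 δ)

/-- A bounded function on the integers that has the same value at any two integers whose
trajectories under `T` are at some time at the same point. -/
def Synchronous (F : ℤ → ℝ) : Prop :=
  (∀ x, |F x| ≤ 1) ∧ ∀ (j : ℕ) (x y : ℤ), T^[j] x = T^[j] y → F x = F y

/-- `exp (2 π i x)` -/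
noncomputable def e (x : ℝ) : ℂ := Complex.exp (((2 * Real.pi * x : ℝ) : ℂ) * Complex.I)

/-- `f` is a strongly multiplicative function of the digits in base `q`, with values of modulus one. -/
def Multiplicative (q : ℕ) (f : ℕ → ℂ) : Prop :=
  (∀ n, ‖f n‖ = 1) ∧ ∀ n r, r < q → f (q * n + r) = f n * f r

/-- `W` is a strongly additive function of the digits in base `q`, for example the sum of the digits. -/
def Additive (q : ℕ) (W : ℕ → ℤ) : Prop := ∀ n r, r < q → W (q * n + r) = W n + W r

/-- The greatest common divisor of `m` and of the numbers `W r - r W 1`, `0 ≤ r ≤ q`. For the sum of the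
digits it is the greatest common divisor of `m` and `q - 1`. -/
def obstruction (q : ℕ) (W : ℕ → ℤ) (m : ℕ) : ℕ :=
  Nat.gcd m ((Finset.range (q + 1)).gcd fun r => (W r - r * W 1).natAbs)

/-- The set of the `n` with `W i n ≡ a i` modulo `m i` for all `i`, and `n ≡ b` modulo `M`. -/
def Class {k : ℕ} (m : Fin k → ℕ) (W : Fin k → ℕ → ℤ) (a : Fin k → ℤ) (M : ℕ) (b : ℤ) : Set ℕ :=
  {n | (∀ i, (m i : ℤ) ∣ W i n - a i) ∧ (M : ℤ) ∣ n - b}

open Classical in
/-- The sum of `F (s n)` over the `n` in `E` with `1 ≤ n ≤ X`. -/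
noncomputable def total (s : ℤ) (F : ℤ → ℝ) (E : Set ℕ) (X : ℕ) : ℝ :=
  ∑ n ∈ (Finset.Icc 1 X).filter (fun n => n ∈ E), F (s * n)

/-- The number of the `n` in `E` with `1 ≤ n ≤ X` and `s n ∈ S`. -/
noncomputable def count (s : ℤ) (S : Set ℤ) (E : Set ℕ) (X : ℕ) : ℕ :=
  {n : ℕ | 1 ≤ n ∧ n ≤ X ∧ n ∈ E ∧ s * n ∈ S}.ncard

/-- The union of the five known cycles. -/
def Known : Finset ℤ := {1, 2, 0, -1, -5, -7, -10, -17, -25, -37, -55, -82, -41, -61, -91, -136,
  -68, -34}

/-- The integers whose trajectory enters a cycle other than the five known ones. -/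
def Other : Set ℤ :=
  {x | ∃ j p : ℕ, 1 ≤ p ∧ T^[p] (T^[j] x) = T^[j] x ∧ T^[j] x ∉ Known}

/-! ### proofs -/

open Pool.Agent.Y55 Finset

theorem known_closed : ∀ x ∈ Known, T x ∈ Known := by decide

theorem known_iter (j : ℕ) : ∀ x ∈ Known, T^[j] x ∈ Known := by
  induction j with
  | zero => intro x hx; exact hx
  | succ j ih => intro x hx; rw [Function.iterate_succ_apply]; exact ih _ (known_closed x hx)

theorem other_inv : Invariant Other := by
  intro x
  constructor
  · rintro ⟨j, p, hp, h1, h2⟩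
    cases j with
    | zero =>
      refine ⟨0, p, hp, ?_, ?_⟩
      · change T^[p] (T x) = T x
        rw [← Function.iterate_succ_apply, Function.iterate_succ_apply']
        exact congrArg T h1
      · intro h3
        apply h2
        change T x ∈ Known at h3
        change x ∈ Known
        have h4 := known_iter (p - 1) _ h3
        rw [← Function.iterate_succ_apply, show (p - 1).succ = p by omega] at h4
        have h5 : T^[p] x = x := h1
        rwa [h5] at h4
    | succ j =>
      rw [Function.iterate_succ_apply] at h1 h2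
      exact ⟨j, p, hp, h1, h2⟩
  · rintro ⟨j, p, hp, h1, h2⟩
    exact ⟨j + 1, p, hp, by rw [Function.iterate_succ_apply]; exact h1,
      by rw [Function.iterate_succ_apply]; exact h2⟩

theorem inv_of {S : Set ℤ} (hS : Invariant S) : Pool.Agent.H499R2.ND.Inv 1 S := by
  intro x
  have e : Pool.Agent.H499R2.ND.Td 1 x = T x := by unfold Pool.Agent.H499R2.ND.Td T; rfl
  rw [e]; exact hS x

theorem T_side {s : ℤ} (hs : s = 1 ∨ s = -1) (x : ℤ) : T (s * x) = s * Pool.Agent.Y965.PS.Tz s x := by
  unfold T Pool.Agent.Y965.PS.Tz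
  rcases hs with rfl | rfl <;> split_ifs <;> omega

theorem T_side_iter {s : ℤ} (hs : s = 1 ∨ s = -1) (j : ℕ) :
    ∀ x : ℤ, T^[j] (s * x) = s * (Pool.Agent.Y965.PS.Tz s)^[j] x := by
  induction j with
  | zero => intro x; rfl
  | succ j ih => intro x; rw [Function.iterate_succ_apply, Function.iterate_succ_apply, T_side hs, ih]

theorem sync_side {s : ℤ} (hs : s = 1 ∨ s = -1) {F : ℤ → ℝ} (hF : Synchronous F) :
    Pool.Agent.Y965.PS.Sync s (fun x => F (s * x)) := by
  refine ⟨fun x => hF.1 _, fun j x y h => hF.2 j _ _ ?_⟩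
  rw [T_side_iter hs, T_side_iter hs, h]

/-- the two signs at once -/
theorem both {Φ : ℤ → ℝ → ℝ → Prop} (h : ∀ s : ℤ, (s = 1 ∨ s = -1) → ∃ C c : ℝ, 0 ≤ C ∧ 0 < c ∧ Φ s C c)
    (hm : ∀ s C c C' c', C ≤ C' → c' ≤ c → Φ s C c → Φ s C' c') :
    ∃ K c : ℝ, 0 < c ∧ ∀ s : ℤ, (s = 1 ∨ s = -1) → Φ s K c := by
  obtain ⟨C1, c1, -, hc1, h1⟩ := h 1 (Or.inl rfl)
  obtain ⟨C2, c2, -, hc2, h2⟩ := h (-1) (Or.inr rfl)
  refine ⟨max C1 C2, min c1 c2, lt_min hc1 hc2, ?_⟩
  rintro s (rfl | rfl)
  · exact hm _ _ _ _ _ (le_max_left _ _) (min_le_left _ _) h1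
  · exact hm _ _ _ _ _ (le_max_right _ _) (min_le_right _ _) h2

theorem pow_mono {C C' c c' : ℝ} (h1 : C ≤ C') (h2 : c' ≤ c) {X : ℕ} (hX : 1 ≤ X) :
    C * (X : ℝ) ^ (1 - c) ≤ C' * (X : ℝ) ^ (1 - c') ∨ C < 0 := by
  by_cases hC : 0 ≤ C
  · left
    have hXR : (1 : ℝ) ≤ X := by exact_mod_cast hX
    have h3 : (X : ℝ) ^ (1 - c) ≤ (X : ℝ) ^ (1 - c') := Real.rpow_le_rpow_of_exponent_le hXR (by linarith)
    exact mul_le_mul h1 h3 (by positivity) (hC.trans h1)
  · right; linarith

theorem bound_mono {C C' c c' A : ℝ} (h1 : C ≤ C') (h2 : c' ≤ c) {X : ℕ} (hX : 1 ≤ X) (hA : 0 ≤ A)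
    (h : A ≤ C * (X : ℝ) ^ (1 - c)) : A ≤ C' * (X : ℝ) ^ (1 - c') := by
  rcases pow_mono h1 h2 hX with h3 | h3
  · exact h.trans h3
  · have hXR : (0 : ℝ) < (X : ℝ) ^ (1 - c) := by
      have : (0 : ℝ) < X := by exact_mod_cast hX
      positivity
    nlinarith

open Classical in
theorem total_eq (s : ℤ) (F : ℤ → ℝ) {k : ℕ} (m : Fin k → ℕ) (W : Fin k → ℕ → ℤ) (a : Fin k → ℤ) (M : ℕ) (b : ℤ) (X : ℕ) :
    total s F (Class m W a M b) X = ∑ n ∈ (Finset.Icc 1 X).filter (fun n => DS.Cl m W a M b n), (fun x => F (s * x)) (n : ℤ) := by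
  unfold total
  apply sum_congr _ fun _ _ => rfl
  apply filter_congr
  intro n _
  rfl

open Classical in
theorem count_eq (s : ℤ) (S : Set ℤ) (E : Set ℕ) (X : ℕ) :
    (count s S E X : ℝ) = ∑ n ∈ (Finset.Icc 1 X).filter (fun n => n ∈ E), Pool.Agent.W41.ind s S (n : ℕ) := by
  unfold count Pool.Agent.W41.ind
  have e1 : {n : ℕ | 1 ≤ n ∧ n ≤ X ∧ n ∈ E ∧ s * n ∈ S} =
      ((((Finset.Icc 1 X).filter (fun n => n ∈ E)).filter (fun n : ℕ => s * (n : ℤ) ∈ S) : Finset ℕ) : Set ℕ) := by
    ext n
    simp only [Set.mem_ofPred_eq, coe_filter, Finset.mem_Icc, mem_filter, and_assoc]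
  rw [e1, Set.ncard_coe_finset, sum_boole]

open Classical in
theorem count_univ (s : ℤ) (E : Set ℕ) (X : ℕ) :
    (count s Set.univ E X : ℝ) = ((Finset.Icc 1 X).filter (fun n => n ∈ E)).card := by
  rw [count_eq]
  unfold Pool.Agent.W41.ind
  simp

theorem density {s : ℤ} (hs : s = 1 ∨ s = -1) {k : ℕ} (q : Fin k → ℕ) (hq : ∀ i, 3 ≤ q i ∧ Odd (q i))
    (hc : ∀ i j, i ≠ j → Nat.Coprime (q i) (q j)) (W : Fin k → ℕ → ℤ) (hW : ∀ i, Additive (q i) (W i))
    (m : Fin k → ℕ) (hm : ∀ i, 1 ≤ m i) {M : ℕ} (hM : 1 ≤ M) {ε : ℝ} (hε : 0 < ε) :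
    ∃ X₀ : ℕ, ∀ S : Set ℤ, Invariant S → ∀ δ : ℝ, Pool.Agent.H499R2.ND.HD s S δ →
      ∀ (a : Fin k → ℤ) (b : ℤ) (X : ℕ), X₀ ≤ X →
        |(count s S (Class m W a M b) X : ℝ) - δ * count s Set.univ (Class m W a M b) X| ≤ ε * X := by
  classical
  obtain ⟨N0, H⟩ := DS.class_density hs q (fun i => (hq i).1) (fun i => (hq i).2) hc W hW m hm hM hε
  refine ⟨N0, fun S hS δ hδ a b X hX => ?_⟩
  have h1 := H S (inv_of hS) δ hδ a b X hX
  have h2 : (count s S (Class m W a M b) X : ℝ) - δ * count s Set.univ (Class m W a M b) X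
      = ∑ n ∈ (Finset.Icc 1 X).filter (fun n => DS.Cl m W a M b n), Pool.Agent.W41.FU.bal s S δ (n : ℕ) := by
    rw [count_eq, count_univ]
    unfold Pool.Agent.W41.FU.bal
    rw [sum_sub_distrib, sum_const, nsmul_eq_mul, mul_comm δ]
    rfl
  rw [h2]
  exact h1

/-- Let `q 1, ..., q k` be pairwise coprime odd bases.
(1) Let `f i` be strongly multiplicative functions of the digits in base `q i`, with values of modulus
one, such that for some `i` the function `f i` is not of the form `n ↦ ζ ^ n`. Then there are `K` and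
`c > 0` such that for both signs `s`, for all bounded functions `F` that have the same value at integers
whose trajectories are at some time at the same point, all real `β` and all `X`, the sum of
`F (s n) e(β n) f 1 n ⋯ f k n` over `n ≤ X` is at most `K X ^ (1 - c)`.
(2) Let `W i` be strongly additive integer valued functions of the digits in base `q i`, and let `m i`
and `M` be positive integers. There are `K` and `c > 0` such that for all such `s`, `F`, all residues and
all `X`, the sum of `F (s n)` over the `n ≤ X` with `W i n ≡ a i` modulo `m i` for all `i` and `n ≡ b` modulo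
`M` is, up to `K X ^ (1 - c)`, the product of the `g i / m i` times the sum over the `n ≤ X` with
`W i 1 n ≡ a i` modulo `g i` and `n ≡ b` modulo `M`; here `g i` is the greatest common divisor of `m i` and
the `W i r - r W i 1`, `0 ≤ r ≤ q i`.
(3) Every invariant set, for example every union of basins of cycles, has in all these classes the
density which it has among all integers of sign `s`, uniformly in the set.
(4) If for both signs, in some nonempty class of this kind, almost no element (up to `X`, for infinitely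
many `X`) has a trajectory that enters an unknown cycle, then there is no unknown cycle. -/
theorem result : ∀ (k : ℕ) (q : Fin k → ℕ), (∀ i, 3 ≤ q i ∧ Odd (q i)) →
    (∀ i j, i ≠ j → Nat.Coprime (q i) (q j)) →
    (∀ f : Fin k → ℕ → ℂ, (∀ i, Multiplicative (q i) (f i)) → (∃ i, ¬ ∀ n, f i n = f i 1 ^ n) →
      ∃ K c : ℝ, 0 < c ∧ ∀ s : ℤ, (s = 1 ∨ s = -1) → ∀ F : ℤ → ℝ, Synchronous F → ∀ (β : ℝ) (X : ℕ), 1 ≤ X →
        ‖∑ n ∈ Finset.Icc 1 X, (F (s * n) : ℂ) * (e (β * n) * ∏ i, f i n)‖ ≤ K * (X : ℝ) ^ (1 - c)) ∧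
    (∀ W : Fin k → ℕ → ℤ, (∀ i, Additive (q i) (W i)) → ∀ m : Fin k → ℕ, (∀ i, 1 ≤ m i) → ∀ M : ℕ, 1 ≤ M →
      (∃ K c : ℝ, 0 < c ∧ ∀ s : ℤ, (s = 1 ∨ s = -1) → ∀ F : ℤ → ℝ, Synchronous F →
        ∀ (a : Fin k → ℤ) (b : ℤ) (X : ℕ), 1 ≤ X →
          |total s F (Class m W a M b) X - (∏ i, (obstruction (q i) (W i) (m i) : ℝ) / m i) *
            total s F (Class (fun i => obstruction (q i) (W i) (m i)) (fun i n => n * W i 1) a M b) X|
            ≤ K * (X : ℝ) ^ (1 - c)) ∧
      (∀ s : ℤ, (s = 1 ∨ s = -1) → ∀ ε : ℝ, 0 < ε → ∃ X₀ : ℕ, ∀ S : Set ℤ, Invariant S → ∃ δ : ℝ,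
        HasDensity s S δ ∧ ∀ (a : Fin k → ℤ) (b : ℤ) (X : ℕ), X₀ ≤ X →
          |(count s S (Class m W a M b) X : ℝ) - δ * count s Set.univ (Class m W a M b) X| ≤ ε * X) ∧
      ∀ (a : ℤ → Fin k → ℤ) (b : ℤ → ℤ) (ψ : ℕ → ℝ), Tendsto ψ atTop (𝓝 0) →
        (∀ s : ℤ, (s = 1 ∨ s = -1) → (Class m W (a s) M (b s)).Nonempty ∧
          ∃ᶠ X : ℕ in atTop, (count s Other (Class m W (a s) M (b s)) X : ℝ) ≤ ψ X * X) →
        ∀ (x : ℤ) (p : ℕ), 1 ≤ p → T^[p] x = x → x ∈ Known) := by
  intro k q hq hc
  have hq3 : ∀ i, 3 ≤ q i := fun i => (hq i).1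
  have hodd : ∀ i, Odd (q i) := fun i => (hq i).2
  refine ⟨?_, ?_⟩
  · rintro f hf ⟨i0, hi0⟩
    obtain ⟨K, c, hc0, H⟩ := both (Φ := fun s K c => ∀ F : ℤ → ℝ, Synchronous F → ∀ (β : ℝ) (X : ℕ), 1 ≤ X →
        ‖∑ n ∈ Finset.Icc 1 X, (F (s * n) : ℂ) * (e (β * n) * ∏ i, f i n)‖ ≤ K * (X : ℝ) ^ (1 - c)) (by
      intro s hs
      obtain ⟨C, c, hC, hc0, H⟩ := DS.power_saving hs q hq3 hodd hc (f := f) hf i0 hi0
      refine ⟨C, c, hC, hc0, fun F hF β X hX => ?_⟩
      obtain ⟨hw1, hw2⟩ := DS.e_twist β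
      exact H _ (sync_side hs hF) (fun n => DS.e (β * n)) hw1 hw2 X hX) (by
      intro s C c C' c' h1 h2 h F hF β X hX
      exact bound_mono h1 h2 hX (norm_nonneg _) (h F hF β X hX))
    exact ⟨K, c, hc0, H⟩
  · intro W hW m hm M hM
    refine ⟨?_, ?_, ?_⟩
    · obtain ⟨K, c, hc0, H⟩ := both (Φ := fun s K c => ∀ F : ℤ → ℝ, Synchronous F →
        ∀ (a : Fin k → ℤ) (b : ℤ) (X : ℕ), 1 ≤ X →
          |total s F (Class m W a M b) X - (∏ i, (obstruction (q i) (W i) (m i) : ℝ) / m i) *
            total s F (Class (fun i => obstruction (q i) (W i) (m i)) (fun i n => n * W i 1) a M b) X|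
            ≤ K * (X : ℝ) ^ (1 - c)) (by
        intro s hs
        obtain ⟨C, c, hC, hc0, H⟩ := DS.kim hs q hq3 hodd hc W hW m hm hM
        refine ⟨C, c, hC, hc0, fun F hF a b X hX => ?_⟩
        rw [total_eq, total_eq]
        exact H _ (sync_side hs hF) a b X hX) (by
        intro s C c C' c' h1 h2 h F hF a b X hX
        exact bound_mono h1 h2 hX (abs_nonneg _) (h F hF a b X hX))
      exact ⟨K, c, hc0, H⟩
    · intro s hs ε hε
      obtain ⟨X₀, hX₀⟩ := density hs q hq hc W hW m hm hM hε
      refine ⟨X₀, fun S hS => ?_⟩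
      obtain ⟨δ, -, -, hδ⟩ := Pool.Agent.H499R2.ND.dens_side (d := 1) odd_one (by norm_num) hs (inv_of hS)
      exact ⟨δ, Pool.Agent.H499R2.ND.HD_ncard hs hδ, fun a b X hX => hX₀ S hS δ hδ a b X hX⟩
    · intro a b ψ hψ h
      classical
      -- no unknown basin
      have key : ∀ s : ℤ, (s = 1 ∨ s = -1) → ∀ x ∈ Other, ¬ 0 < s * x := by
        intro s hs x hx hx0
        obtain ⟨hne, hfr⟩ := h s hs
        obtain ⟨δ, -, -, hδ⟩ := Pool.Agent.H499R2.ND.dens_side (d := 1) odd_one (by norm_num) hs (inv_of other_inv)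
        have hpos := Pool.Agent.H499R2.ND.one_pos hs (inv_of other_inv) hx hx0 hδ
        obtain ⟨κ, hκ, N0, h0⟩ := DS.class_large q hq3 hodd hc W hW m hm hM
        obtain ⟨X₀, hX₀⟩ := density hs q hq hc W hW m hm hM (show 0 < δ * κ / 4 by positivity)
        have h2 : ∀ᶠ X : ℕ in atTop, ψ X < δ * κ / 4 := hψ.eventually (gt_mem_nhds (by positivity))
        obtain ⟨X, hX, hX1, hX2, hX3, hX4⟩ := (hfr.and_eventually (h2.and ((eventually_ge_atTop X₀).and
          ((eventually_ge_atTop N0).and (eventually_ge_atTop 1))))).exists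
        have h3 := (abs_le.1 (hX₀ Other other_inv δ hδ (a s) (b s) X hX2)).1
        have h4 := h0 (a s) (b s) hne X hX3
        have h5 : κ * X ≤ count s Set.univ (Class m W (a s) M (b s)) X := by
          rw [count_univ]; exact h4
        have h6 : (1 : ℝ) ≤ X := by exact_mod_cast hX4
        have h7 : δ * (κ * X) ≤ δ * count s Set.univ (Class m W (a s) M (b s)) X :=
          mul_le_mul_of_nonneg_left h5 hpos.le
        have h8 : 0 < δ * κ * X := by positivity
        have h9 : ψ X * X ≤ δ * κ / 4 * X := mul_le_mul_of_nonneg_right hX1.le (by linarith)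
        have h10 : δ * (κ * X) = δ * κ * X := by ring
        linarith
      intro x p hp hx
      by_contra hcon
      have hxO : x ∈ Other := ⟨0, p, hp, hx, hcon⟩
      rcases lt_trichotomy x 0 with h1 | h1 | h1
      · exact key (-1) (Or.inr rfl) x hxO (by linarith)
      · exact hcon (by rw [h1]; decide)
      · exact key 1 (Or.inl rfl) x hxO (by linarith)

end Pool.Agent.Results.MP_edb5be_nt.DigitalSequences
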