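import Mathlib
import Pool.Agent.Y780.Cz.Main1
import Pool.Agent.H547R3.Cyc

set_option autoImplicit false

/-!
# The parity words of the periodic points of the 3x+1 map are far apart

The parity words (over a common period `p`) of two different periodic integers differ in at least
`log p / log (log 3 / log 2) - O(log log p)` places, and in at least six places unless both integers
belong to the five known cycles. So the only cycles of the 3x+1 map whose parity word has two
rotations, starting at different elements, that differ in at most five places are the cycles of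
`1`, `-5` and `-17`.
-/

namespace Pool.Agent.Results.MP_edb5be_nt.DistantParityWords

/-- The 3x+1 map on the integers. -/
def T (x : ℤ) : ℤ := if x % 2 = 0 then x / 2 else (3 * x + 1) / 2

/-- The number of `i < n` for which one of `T^i x`, `T^i y` is even and the other one is odd, that is,
the Hamming distance of the parity words of length `n` of `x` and `y`. -/
def parityDist (x y : ℤ) (n : ℕ) : ℕ :=
  ((Finset.range n).filter fun i => T^[i] x % 2 ≠ T^[i] y % 2).card

/-- `Z` is a cycle of `T`. -/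
def IsCycle (Z : Finset ℤ) : Prop :=
  ∃ (x : ℤ) (p : ℕ), 1 ≤ p ∧ T^[p] x = x ∧ Z = (Finset.range p).image fun i => T^[i] x

/-- The elements of the five known cycles. -/
def Known : Finset ℤ := {1, 2, 0, -1, -5, -7, -10, -17, -25, -37, -55, -82, -41, -61, -91, -136, -68, -34}

open Pool.Agent.Y780 in
lemma T_eq : T = Cz.T 3 1 := rfl

open Pool.Agent.Y780 in
lemma parityDist_eq (x y : ℤ) (n : ℕ) : parityDist x y n = Cz.dis 3 1 x y n := by
  unfold parityDist Cz.dis
  rw [Finset.card_filter, T_eq]
  apply Finset.sum_congr rfl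
  intro i _
  by_cases h : (Cz.T 3 1)^[i] x % 2 = (Cz.T 3 1)^[i] y % 2
  · rw [if_pos h, if_neg (not_not.2 h)]
  · rw [if_neg h, if_pos h]

lemma card_period {Z : Finset ℤ} (hZ : IsCycle Z) {x : ℤ} (hx : x ∈ Z) :
    1 ≤ Z.card ∧ T^[Z.card] x = x := by
  have hZ' : Pool.Agent.H547R3.IsCycle Z := hZ
  obtain ⟨x0, h0, h1, -, h3, -, -⟩ := hZ'.normal
  obtain ⟨j, hj⟩ := hZ'.back h0 hx
  refine ⟨by omega, ?_⟩
  change Pool.Agent.H319R2.T^[Z.card] x = x
  rw [← hj, h3, ← Function.iterate_add_apply, Nat.add_comm, Function.iterate_add_apply,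
    Function.iterate_minimalPeriod]

lemma cycle_one : IsCycle {1, 2} := ⟨1, 2, by norm_num, by decide, by decide⟩

lemma cycle_zero : IsCycle {0} := ⟨0, 1, by norm_num, by decide, by decide⟩

lemma cycle_neg_one : IsCycle {-1} := ⟨-1, 1, by norm_num, by decide, by decide⟩

lemma cycle_neg_five : IsCycle {-5, -7, -10} := ⟨-5, 3, by norm_num, by decide, by decide⟩

lemma cycle_neg_seventeen : IsCycle {-17, -25, -37, -55, -82, -41, -61, -91, -136, -68, -34} :=
  ⟨-17, 11, by norm_num, by decide, by decide⟩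

lemma known_cases : ∀ x ∈ Known, x ∈ ({1, 2} : Finset ℤ) ∨ x ∈ ({0} : Finset ℤ) ∨ x ∈ ({-1} : Finset ℤ) ∨
    x ∈ ({-5, -7, -10} : Finset ℤ) ∨
    x ∈ ({-17, -25, -37, -55, -82, -41, -61, -91, -136, -68, -34} : Finset ℤ) := by decide

open Pool.Agent.Y780 in
/-- If the trajectories of two integers `x`, `y` have not met after `n` steps and their parities
differ at `D` of these steps, then `n ≤ (2 + log_2 (max(|x|, |y|) + 1)) (1 + δ + ... + δ ^ D)`, where
`δ = log 3 / log 2`. -/
theorem trajectories (x y : ℤ) (n : ℕ) (hne : T^[n] x ≠ T^[n] y) :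
    (n : ℝ) ≤ (2 + Real.logb 2 (max |(x : ℝ)| |(y : ℝ)| + 1)) *
      ∑ j ∈ Finset.range (parityDist x y n + 1), (Real.log 3 / Real.log 2) ^ j := by
  have h := Cz.count (q := 3) (k := 1) (by norm_num) (by norm_num) (by norm_num)
    (Cz.dis 3 1 x y n) n x y rfl hne
  rw [parityDist_eq]
  unfold Cz.mx at h
  push_cast at h
  rw [abs_one] at h
  exact h

open Pool.Agent.Y780 in
/-- (1) There is `A` such that for all integers `x ≠ y` with `T^p x = x`, `T^p y = y`, `p ≥ 1`, whose
parities differ at `D` of the `p` steps, `p ≤ A (1 + D + log p) (log 3 / log 2) ^ D`; so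
`D ≥ log p / log (log 3 / log 2) - O(log log p)`.
(2) If moreover `D ≤ 5`, then `x` and `y` belong to the five known cycles.
(3) A finite set `Z` is a cycle with two different elements whose parity words (over the length of the
cycle) differ in at most five places if and only if `Z` is the cycle of `1`, of `-5` or of `-17`. -/
theorem result :
    (∃ A : ℝ, ∀ (x y : ℤ) (p : ℕ), 1 ≤ p → x ≠ y → T^[p] x = x → T^[p] y = y →
      (p : ℝ) ≤ A * (1 + parityDist x y p + Real.log p) *
        (Real.log 3 / Real.log 2) ^ parityDist x y p) ∧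
    (∀ (x y : ℤ) (p : ℕ), 1 ≤ p → x ≠ y → T^[p] x = x → T^[p] y = y → parityDist x y p ≤ 5 →
      x ∈ Known ∧ y ∈ Known) ∧
    (∀ Z : Finset ℤ, (IsCycle Z ∧ ∃ x ∈ Z, ∃ y ∈ Z, x ≠ y ∧ parityDist x y Z.card ≤ 5) ↔
      Z = {1, 2} ∨ Z = {-5, -7, -10} ∨
        Z = {-17, -25, -37, -55, -82, -41, -61, -91, -136, -68, -34}) := by
  have h3 : ∀ (x y : ℤ) (p : ℕ), 1 ≤ p → x ≠ y → T^[p] x = x → T^[p] y = y →
      parityDist x y p ≤ 5 → x ∈ Known ∧ y ∈ Known := by
    intro x y p hp hxy hx hy hD
    rw [parityDist_eq] at hD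
    exact Cz.classify hp hxy hx hy hD
  refine ⟨?_, h3, fun Z => ⟨?_, ?_⟩⟩
  · obtain ⟨A, hA⟩ := Cz.asym
    refine ⟨A, fun x y p hp hxy hx hy => ?_⟩
    rw [parityDist_eq]
    exact hA x y p hp hxy hx hy
  · rintro ⟨hZ, x, hxZ, y, hyZ, hxy, hD⟩
    obtain ⟨hp, hx⟩ := card_period hZ hxZ
    obtain ⟨-, hy⟩ := card_period hZ hyZ
    obtain ⟨hxK, -⟩ := h3 x y Z.card hp hxy hx hy hD
    have hZ' : Pool.Agent.H547R3.IsCycle Z := hZ
    have key : ∀ Z' : Finset ℤ, IsCycle Z' → x ∈ Z' → Z = Z' := fun Z' hc hm => hZ'.eq_of_mem hc hxZ hm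
    rcases known_cases x hxK with h | h | h | h | h
    · exact Or.inl (key _ cycle_one h)
    · exfalso
      have e := key _ cycle_zero h
      rw [e, Finset.mem_singleton] at hxZ hyZ
      exact hxy (hxZ.trans hyZ.symm)
    · exfalso
      have e := key _ cycle_neg_one h
      rw [e, Finset.mem_singleton] at hxZ hyZ
      exact hxy (hxZ.trans hyZ.symm)
    · exact Or.inr (Or.inl (key _ cycle_neg_five h))
    · exact Or.inr (Or.inr (key _ cycle_neg_seventeen h))
  · rintro (rfl | rfl | rfl)
    · exact ⟨cycle_one, 1, by decide, 2, by decide, by decide, by decide⟩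
    · exact ⟨cycle_neg_five, -5, by decide, -7, by decide, by decide, by decide⟩
    · exact ⟨cycle_neg_seventeen, -17, by decide, -25, by decide, by decide, by decide⟩

end Pool.Agent.Results.MP_edb5be_nt.DistantParityWords
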