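import Mathlib
import Pool.Agent.Y834.CD.Poly
import Pool.Agent.Results.MP_d02c56_nt.FourierUniformity

set_option autoImplicit false

/-!
# The basins of the cycles of the 3x+1 map along almost all tuples of sparse shifts

Let `a 1, ..., a k` be families of integers of size at most `N`, of length `L 1, ..., L k`. The only
condition is that for some fixed `t` the number of pairs of `t`-tuples of members of a family with the
same sum is at most `C L ^ (2 t) / N`, a constant times what it is for a random family. Examples are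
the values of an integer polynomial of any degree `d ≥ 1` at `1, ..., L`, where `L` is of the order
of `N ^ (1 / d)`. Then for almost all choices of one member `b i` from each family the condition that
`x + b i` is in the invariant set `S i` for all `i` (for example, in the basins of given cycles) has
among the `x` in `(N, 2 N]` the frequency given by the product of the densities, and is uncorrelated
with every given bounded function `G x`, uniformly in the sets, in the families, and in `G`. All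
cycles are known if for suitable such families, for a positive proportion of the choices, almost all
`x` are such that some `x + b i` does not enter an unknown cycle.

Method. The Fourier uniformity of the invariant sets (starting file `FourierUniformity` of
MP_d02c56_nt); the large spectrum of a family of bounded energy has boundedly many elements; so the
autocorrelations of `1_S - δ` are small at almost all differences of a family, and a Cauchy-Schwarz
argument treats all tuples. The energy of polynomial values comes from the moments of Weyl sums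
(starting file `Pool/Agent/H373R2/NB/WeylSum.lean`).
-/

namespace Pool.Agent.Results.MP_edb5be_nt.SparseShifts

open Filter Topology

/-- The 3x+1 map on the integers. -/
def T (x : ℤ) : ℤ := if x % 2 = 0 then x / 2 else (3 * x + 1) / 2

/-- `S` is invariant under `T` and its inverse, for example the set of the integers whose trajectory
enters a given cycle. -/
def Invariant (S : Set ℤ) : Prop := ∀ x : ℤ, x ∈ S ↔ T x ∈ S

/-- Among the integers of sign `s` the set `S` has natural density `δ`. -/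
def HasDensity (s : ℤ) (S : Set ℤ) (δ : ℝ) : Prop :=
  Tendsto (fun N : ℕ => ({n : ℤ | 0 < s * n ∧ s * n ≤ N ∧ n ∈ S}.ncard : ℝ) / N) atTop (𝓝 δ)

/-- The number of the pairs of `t`-tuples of members of the family `a` with the same sum. -/
noncomputable def energy (t : ℕ) {L : ℕ} (a : Fin L → ℤ) : ℕ :=
  {p : (Fin t → Fin L) × (Fin t → Fin L) | ∑ i, a (p.1 i) = ∑ i, a (p.2 i)}.ncard

/-- The members of the family `a` have absolute value at most `N`, and its energy is at most
`C L ^ (2 t) / N`. -/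
def Spread (t : ℕ) (C : ℝ) (N : ℕ) {L : ℕ} (a : Fin L → ℤ) : Prop :=
  (∀ i, |a i| ≤ N) ∧ (energy t a : ℝ) ≤ C * (L : ℝ) ^ (2 * t) / N

/-- The number of the `x` with `N < x ≤ 2 N` such that `s (x + b i)` is in `U` for all `i`. -/
noncomputable def hits (s : ℤ) (N : ℕ) {k : ℕ} (b : Fin k → ℤ) (U : Set ℤ) : ℕ :=
  {x : ℕ | N < x ∧ x ≤ 2 * N ∧ ∀ i, s * (x + b i) ∈ U}.ncard

/-- The sum over `N < x ≤ 2 N` of `G x` times the difference of the indicator function of the event
that `s (x + b i)` is in `S i` for all `i`, and the product of the numbers `δ i`. -/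
noncomputable def deviation (s : ℤ) (N : ℕ) (G : ℕ → ℝ) {k : ℕ} (b : Fin k → ℤ) (S : Fin k → Set ℤ)
    (δ : Fin k → ℝ) : ℝ :=
  ∑ x ∈ Finset.Ioc N (2 * N),
    G x * (∏ i, (S i).indicator (fun _ => (1 : ℝ)) (s * (x + b i)) - ∏ i, δ i)

/-- The choices of one member from each of the families `a i` for which the deviation is larger than
`ε N`. -/
def Exceptional (s : ℤ) (ε : ℝ) (N : ℕ) (G : ℕ → ℝ) {k : ℕ} {L : Fin k → ℕ} (a : ∀ i, Fin (L i) → ℤ)
    (S : Fin k → Set ℤ) (δ : Fin k → ℝ) : Set (∀ i, Fin (L i)) :=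
  {v | ε * N < |deviation s N G (fun i => a i (v i)) S δ|}

/-- The union of the five known cycles. -/
def Known : Finset ℤ := {1, 2, 0, -1, -5, -7, -10, -17, -25, -37, -55, -82, -41, -61, -91, -136,
  -68, -34}

/-- The integers whose trajectory enters a cycle other than the five known ones. -/
def Other : Set ℤ :=
  {x | ∃ j p : ℕ, 1 ≤ p ∧ T^[p] (T^[j] x) = T^[j] x ∧ T^[j] x ∉ Known}

/-- For infinitely many `N` there are families of bounded energy such that for a positive proportion
of the choices of one member `b i` from each family only `o(N)` of the integers `x` in `(N, 2 N]` are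
such that all the `s (x + b i)` are in `U`. -/
def Rare (s : ℤ) (U : Set ℤ) : Prop :=
  ∃ (k t : ℕ) (C κ : ℝ) (ψ : ℕ → ℝ), 0 < κ ∧ Tendsto ψ atTop (𝓝 0) ∧ ∃ᶠ N : ℕ in atTop,
    ∃ (L : Fin k → ℕ) (a : ∀ i, Fin (L i) → ℤ), (∀ i, 0 < L i) ∧ (∀ i, Spread t C N (a i)) ∧
      κ * ∏ i, (L i : ℝ) ≤
        ({v : ∀ i, Fin (L i) | (hits s N (fun i => a i (v i)) U : ℝ) ≤ ψ N * N}.ncard : ℝ)

/-! ### proofs -/

open Pool.Agent.Y834.CD Finset

theorem known_closed : ∀ x ∈ Known, T x ∈ Known := by decide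

theorem known_iter (j : ℕ) : ∀ x ∈ Known, T^[j] x ∈ Known := by
  induction j with
  | zero => intro x hx; exact hx
  | succ j ih => intro x hx; rw [Function.iterate_succ_apply]; exact ih _ (known_closed x hx)

theorem other_inv : Invariant Other := by
  intro x
  constructor
  · rintro ⟨j, p, hp, h1, h2⟩
    cases j with
    | zero =>
      refine ⟨0, p, hp, ?_, ?_⟩
      · change T^[p] (T x) = T x
        rw [← Function.iterate_succ_apply, Function.iterate_succ_apply']
        exact congrArg T h1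
      · intro h3
        apply h2
        change T x ∈ Known at h3
        change x ∈ Known
        have h4 := known_iter (p - 1) _ h3
        rw [← Function.iterate_succ_apply, show (p - 1).succ = p by omega] at h4
        have h5 : T^[p] x = x := h1
        rwa [h5] at h4
    | succ j =>
      rw [Function.iterate_succ_apply] at h1 h2
      exact ⟨j, p, hp, h1, h2⟩
  · rintro ⟨j, p, hp, h1, h2⟩
    exact ⟨j + 1, p, hp, by rw [Function.iterate_succ_apply]; exact h1,
      by rw [Function.iterate_succ_apply]; exact h2⟩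

theorem inv_C {S : Set ℤ} (hS : Invariant S) :
    Pool.Agent.Results.MP_d02c56_nt.FourierUniformity.Invariant S := by
  intro x
  unfold Pool.Agent.Results.MP_d02c56_nt.FourierUniformity.C
  by_cases h : x % 2 = 0
  · rw [if_pos h]
    have := hS x
    unfold T at this
    rwa [if_pos h] at this
  · rw [if_neg h]
    have h1 := hS x
    have h2 := hS (3 * x + 1)
    have h3 : (3 * x + 1) % 2 = 0 := by omega
    unfold T at h1 h2
    rw [if_neg h] at h1
    rw [if_pos h3] at h2
    rw [h1, h2]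

theorem density_mem {s : ℤ} (hs : s = 1 ∨ s = -1) {S : Set ℤ} {δ : ℝ} (h : HasDensity s S δ) :
    0 ≤ δ ∧ δ ≤ 1 := by
  constructor
  · exact ge_of_tendsto' h (fun N => by positivity)
  · refine le_of_tendsto' h (fun N => ?_)
    apply div_le_one_of_le₀ _ (Nat.cast_nonneg _)
    have h1 : {n : ℤ | 0 < s * n ∧ s * n ≤ N ∧ n ∈ S} ⊆
        (((Finset.Icc 1 N).image (fun n : ℕ => s * (n : ℤ)) : Finset ℤ) : Set ℤ) := by
      rintro n ⟨h1, h2, -⟩
      rw [Finset.mem_coe, Finset.mem_image]
      rcases hs with rfl | rfl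
      · exact ⟨n.toNat, by rw [Finset.mem_Icc]; omega, by omega⟩
      · exact ⟨(-n).toNat, by rw [Finset.mem_Icc]; omega, by omega⟩
    have h2 := Set.ncard_le_ncard h1 (Finset.finite_toSet _)
    rw [Set.ncard_coe_finset] at h2
    have h3 : ((Finset.Icc 1 N).image (fun n : ℕ => s * (n : ℤ))).card ≤ N := by
      refine card_image_le.trans ?_
      simp
    exact_mod_cast h2.trans h3

theorem energy_eq (t : ℕ) {L : ℕ} (a : Fin L → ℤ) : energy t a = en t a := by
  classical
  unfold energy en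
  rw [← Set.ncard_coe_finset]
  congr 1
  ext p
  simp

theorem hits_eq (s : ℤ) (N : ℕ) {k : ℕ} (b : Fin k → ℤ) (U : Set ℤ) :
    (hits s N b U : ℝ) = ∑ x ∈ Ioc N (2 * N), ∏ l, U.indicator (fun _ => (1 : ℝ)) (s * (x + b l)) := by
  classical
  have h1 : ∀ x : ℕ, ∏ l, U.indicator (fun _ => (1 : ℝ)) (s * (x + b l)) =
      if ∀ i, s * (x + b i) ∈ U then (1 : ℝ) else 0 := by
    intro x
    simp only [Set.indicator_apply]
    rw [Finset.prod_ite_zero]
    simp
  have h2 : {x : ℕ | N < x ∧ x ≤ 2 * N ∧ ∀ i, s * (x + b i) ∈ U} =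
      (((Ioc N (2 * N)).filter (fun x : ℕ => ∀ i, s * (x + b i) ∈ U) : Finset ℕ) : Set ℕ) := by
    ext x
    simp only [Set.mem_ofPred_eq, coe_filter, Finset.mem_Ioc, and_assoc]
  unfold hits
  rw [h2, Set.ncard_coe_finset, card_filter]
  push_cast
  exact sum_congr rfl fun x _ => (h1 x).symm

theorem deviation_one (s : ℤ) (N : ℕ) {k : ℕ} (b : Fin k → ℤ) (U : Set ℤ) (δ : ℝ) :
    deviation s N (fun _ => 1) b (fun _ => U) (fun _ => δ) = hits s N b U - δ ^ k * N := by
  unfold deviation
  rw [hits_eq]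
  simp only [one_mul, prod_const, card_univ, Fintype.card_fin]
  rw [sum_sub_distrib, sum_const, Nat.card_Ioc, nsmul_eq_mul, show 2 * N - N = N by omega]
  ring

theorem uniform {s : ℤ} (hs : s = 1 ∨ s = -1) {ε : ℝ} (hε : 0 < ε) : ∃ N₀ : ℕ, ∀ S : Set ℤ, Invariant S →
    ∃ δ : ℝ, HasDensity s S δ ∧ ∀ N : ℕ, N₀ ≤ N → ∀ α : ℝ,
      ‖es (fun n => S.indicator (fun _ => (1 : ℝ)) (s * n)) δ N α‖ ≤ ε * N := by
  obtain ⟨N₀, H⟩ := (Pool.Agent.Results.MP_d02c56_nt.FourierUniformity.result.1 s hs).2.1 ε hε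
  refine ⟨N₀, fun S hS => ?_⟩
  obtain ⟨δ, h1, h2⟩ := H S (inv_C hS)
  exact ⟨δ, h1, fun N hN α => h2 N hN α⟩

/-- the general theorem -/
theorem general {s : ℤ} (hs : s = 1 ∨ s = -1) (k t : ℕ) (C : ℝ) {ε : ℝ} (hε : 0 < ε) : ∃ N₀ : ℕ,
    ∀ S : Fin k → Set ℤ, (∀ i, Invariant (S i)) → ∃ δ : Fin k → ℝ, (∀ i, HasDensity s (S i) (δ i)) ∧
    ∀ N : ℕ, N₀ ≤ N → ∀ (L : Fin k → ℕ) (a : ∀ i, Fin (L i) → ℤ), (∀ i, Spread t C N (a i)) →
    ∀ G : ℕ → ℝ, (∀ x, |G x| ≤ 1) →
      ((Exceptional s ε N G a S δ).ncard : ℝ) ≤ ε * ∏ i, (L i : ℝ) := by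
  classical
  obtain ⟨τ, ε₁, hτ, hε₁, hpar⟩ := exists_par k t (C := max C 0) (le_max_right _ _) hε
  obtain ⟨N₀, H⟩ := uniform hs (show 0 < ε₁ / 3 by positivity)
  refine ⟨N₀ + 1, fun S hS => ?_⟩
  choose δ hδ hu using fun i => H (S i) (hS i)
  refine ⟨δ, hδ, fun N hN L a ha G hG => ?_⟩
  have hNpos : 0 < N := by omega
  have hN0 : (0 : ℝ) < N := by exact_mod_cast hNpos
  have hfin := finite_form (k := k) (t := t) hτ hε hpar hNpos
    (fun l n => (S l).indicator (fun _ => (1 : ℝ)) (s * n)) δ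
    (fun l n => by
      simp only [Set.indicator_apply]
      split_ifs <;> norm_num)
    (fun l => density_mem hs (hδ l))
    (fun l α => by
      have h1 := hu l (3 * N) (by omega) α
      push_cast at h1
      linarith)
    L a (fun l i => (ha l).1 i)
    (fun l => by
      have h1 := (ha l).2
      rw [energy_eq, le_div_iff₀ hN0] at h1
      refine h1.trans (mul_le_mul_of_nonneg_right (le_max_left _ _) (by positivity)))
    G hG
  refine le_trans (le_of_eq ?_) hfin
  rw [Nat.cast_inj, ← Set.ncard_coe_finset]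
  congr 1
  ext v
  simp only [Exceptional, deviation, Set.mem_ofPred_eq, coe_filter, mem_univ, true_and]

theorem polynomial {s : ℤ} (hs : s = 1 ∨ s = -1) (k : ℕ) (P : Fin k → Polynomial ℤ)
    (hP : ∀ i, 1 ≤ (P i).natDegree) {B : ℕ} (hB : 1 ≤ B) {ε : ℝ} (hε : 0 < ε) : ∃ N₀ : ℕ,
    ∀ S : Fin k → Set ℤ, (∀ i, Invariant (S i)) → ∃ δ : Fin k → ℝ, (∀ i, HasDensity s (S i) (δ i)) ∧
    ∀ N : ℕ, N₀ ≤ N → ∀ L : Fin k → ℕ, (∀ i, ∀ m : Fin (L i), |(P i).eval (((m : ℕ) + 1 : ℕ) : ℤ)| ≤ N) →
    (∀ i, N ≤ B * L i ^ (P i).natDegree) → ∀ G : ℕ → ℝ, (∀ x, |G x| ≤ 1) →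
      ((Exceptional s ε N G (fun i (m : Fin (L i)) => (P i).eval (((m : ℕ) + 1 : ℕ) : ℤ)) S δ).ncard : ℝ) ≤
        ε * ∏ i, (L i : ℝ) := by
  choose t₀ C hC H using fun i => poly_energy (P i) (hP i) B hB
  obtain ⟨N₀, hN₀⟩ := general hs k (∑ i, t₀ i) (∑ i, C i) hε
  refine ⟨N₀ + 1, fun S hS => ?_⟩
  obtain ⟨δ, hδ, h⟩ := hN₀ S hS
  refine ⟨δ, hδ, fun N hN L hL hNL G hG => ?_⟩
  apply h N (by omega) L _ _ G hG
  intro i
  refine ⟨hL i, ?_⟩
  have hNpos : 0 < N := by omega
  have hLpos : 1 ≤ L i := by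
    rcases Nat.eq_zero_or_pos (L i) with h0 | h0
    · have h1 := hNL i
      rw [h0, zero_pow (by have := hP i; omega), Nat.mul_zero] at h1
      omega
    · exact h0
  have h1 := H i (∑ i, t₀ i) (single_le_sum (f := t₀) (fun _ _ => Nat.zero_le _) (mem_univ i)) (L i) N hLpos
    (by omega) (hNL i)
  rw [energy_eq, le_div_iff₀ (by exact_mod_cast hNpos)]
  refine h1.trans (mul_le_mul_of_nonneg_right ?_ (by positivity))
  exact single_le_sum (f := C) (fun i _ => (hC i).le) (mem_univ i)

theorem reduction {s : ℤ} (hs : s = 1 ∨ s = -1) {U : Set ℤ} (hU : Invariant U) (h : Rare s U) :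
    ∀ x : ℤ, 0 < s * x → x ∉ U := by
  classical
  intro x hx hxU
  obtain ⟨k, t, C, κ, ψ, hκ, hψ, hfr⟩ := h
  obtain ⟨δ, hδ, hd⟩ := Pool.Agent.Results.MP_d02c56_nt.FourierUniformity.dens_pos hs (inv_C hU) ⟨x, hxU, hx⟩
  have hd' : HasDensity s U δ := hd
  set ε : ℝ := min (κ / 2) (δ ^ k / 2) with hε
  have hε0 : 0 < ε := by rw [hε]; positivity
  obtain ⟨N₀, H⟩ := general hs k t C hε0
  obtain ⟨δ', hδ', H'⟩ := H (fun _ => U) (fun _ => hU)
  have hδδ : ∀ i, δ' i = δ := fun i => tendsto_nhds_unique (hδ' i) hd'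
  have hψ' : ∀ᶠ N : ℕ in atTop, ψ N < δ ^ k / 2 := (tendsto_order.1 hψ).2 _ (by positivity)
  obtain ⟨N, ⟨L, a, hL, ha, hcard⟩, hψN, hN⟩ := (hfr.and_eventually (hψ'.and (eventually_ge_atTop (N₀ + 1)))).exists
  have hNpos : (0 : ℝ) < N := by exact_mod_cast (by omega : 0 < N)
  have hex := H' N (by omega) L a ha (fun _ => 1) (fun _ => by simp)
  rw [show δ' = fun _ => δ from funext hδδ] at hex
  have hprod : 0 < ∏ i, (L i : ℝ) := prod_pos fun i _ => by exact_mod_cast hL i
  have hlt : ((Exceptional s ε N (fun _ => 1) a (fun _ => U) (fun _ => δ)).ncard : ℝ) <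
      ({v : ∀ i, Fin (L i) | (hits s N (fun i => a i (v i)) U : ℝ) ≤ ψ N * N}.ncard : ℝ) := by
    refine lt_of_le_of_lt hex (lt_of_lt_of_le ?_ hcard)
    apply mul_lt_mul_of_pos_right _ hprod
    calc ε ≤ κ / 2 := min_le_left _ _
      _ < κ := by linarith
  have hsub : ¬ {v : ∀ i, Fin (L i) | (hits s N (fun i => a i (v i)) U : ℝ) ≤ ψ N * N} ⊆
      Exceptional s ε N (fun _ => 1) a (fun _ => U) (fun _ => δ) := by
    intro hsub
    have := Set.ncard_le_ncard hsub (Set.toFinite _)
    have h2 : ({v : ∀ i, Fin (L i) | (hits s N (fun i => a i (v i)) U : ℝ) ≤ ψ N * N}.ncard : ℝ) ≤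
      ((Exceptional s ε N (fun _ => 1) a (fun _ => U) (fun _ => δ)).ncard : ℝ) := by exact_mod_cast this
    linarith
  rw [Set.not_subset] at hsub
  obtain ⟨v, hv1, hv2⟩ := hsub
  rw [Set.mem_ofPred_eq] at hv1
  unfold Exceptional at hv2
  rw [Set.mem_ofPred_eq, not_lt] at hv2
  rw [deviation_one] at hv2
  have h3 := (abs_le.1 hv2).1
  have h5 : ε * N ≤ δ ^ k / 2 * N := mul_le_mul_of_nonneg_right (min_le_right _ _) hNpos.le
  have h6 : ψ N * N < δ ^ k / 2 * N := mul_lt_mul_of_pos_right hψN hNpos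
  linarith

/-- (1) Let `s` be a sign. For all `k`, `t`, `C` and `ε > 0` there is `N₀` such that invariant sets
`S 1, ..., S k` have among the integers of sign `s` densities `δ i`, and for all `N ≥ N₀`, all
families `a 1, ..., a k` of integers of absolute value at most `N` with energies at most
`C L ^ (2 t) / N`, and every function `G` with values in `[-1, 1]`, all but at most the proportion `ε`
of the choices of one member `b i` from each family are such that the sum of `G x` over the `x` in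
`(N, 2 N]` with `s (x + b i) ∈ S i` for all `i` is the product of the densities times the sum of `G x`
over all `x` in `(N, 2 N]`, up to `ε N`.
(2) This holds for the values of nonconstant integer polynomials `P i` at `1, ..., L i`, if these are
at most `N` in size and `N ≤ B (L i) ^ deg (P i)`.
(3) An invariant set contains no integer of sign `s` if for infinitely many `N` there are families
of bounded energy (for example polynomial values) such that for a positive proportion of the
choices only `o(N)` of the `x` in `(N, 2 N]` have all the `s (x + b i)` in the set.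
(4) If this holds for both signs and the set of the integers whose trajectories enter a cycle other
than the five known ones, then there is no such cycle. -/
theorem result :
    (∀ s : ℤ, (s = 1 ∨ s = -1) → ∀ (k t : ℕ) (C ε : ℝ), 0 < ε → ∃ N₀ : ℕ,
      ∀ S : Fin k → Set ℤ, (∀ i, Invariant (S i)) → ∃ δ : Fin k → ℝ, (∀ i, HasDensity s (S i) (δ i)) ∧
      ∀ N : ℕ, N₀ ≤ N → ∀ (L : Fin k → ℕ) (a : ∀ i, Fin (L i) → ℤ), (∀ i, Spread t C N (a i)) →
      ∀ G : ℕ → ℝ, (∀ x, |G x| ≤ 1) →
        ((Exceptional s ε N G a S δ).ncard : ℝ) ≤ ε * ∏ i, (L i : ℝ)) ∧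
    (∀ s : ℤ, (s = 1 ∨ s = -1) → ∀ (k : ℕ) (P : Fin k → Polynomial ℤ), (∀ i, 1 ≤ (P i).natDegree) →
      ∀ B : ℕ, 1 ≤ B → ∀ ε : ℝ, 0 < ε → ∃ N₀ : ℕ,
      ∀ S : Fin k → Set ℤ, (∀ i, Invariant (S i)) → ∃ δ : Fin k → ℝ, (∀ i, HasDensity s (S i) (δ i)) ∧
      ∀ N : ℕ, N₀ ≤ N → ∀ L : Fin k → ℕ,
      (∀ i, ∀ m : Fin (L i), |(P i).eval (((m : ℕ) + 1 : ℕ) : ℤ)| ≤ N) →
      (∀ i, N ≤ B * L i ^ (P i).natDegree) → ∀ G : ℕ → ℝ, (∀ x, |G x| ≤ 1) →
        ((Exceptional s ε N G (fun i (m : Fin (L i)) => (P i).eval (((m : ℕ) + 1 : ℕ) : ℤ)) S δ).ncard : ℝ) ≤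
          ε * ∏ i, (L i : ℝ)) ∧
    (∀ s : ℤ, (s = 1 ∨ s = -1) → ∀ U : Set ℤ, Invariant U → Rare s U → ∀ x : ℤ, 0 < s * x → x ∉ U) ∧
    (Rare 1 Other → Rare (-1) Other → ∀ (x : ℤ) (p : ℕ), 1 ≤ p → T^[p] x = x → x ∈ Known) := by
  refine ⟨fun s hs k t C ε hε => general hs k t C hε, fun s hs k P hP B hB ε hε => polynomial hs k P hP hB hε,
    fun s hs U hU h => reduction hs hU h, fun h1 h2 x p hp hx => ?_⟩
  by_contra hcon
  have hmem : x ∈ Other := ⟨0, p, hp, hx, hcon⟩
  rcases lt_trichotomy x 0 with h | h | h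
  · exact reduction (Or.inr rfl) other_inv h2 x (by omega) hmem
  · subst h
    exact hcon (by decide)
  · exact reduction (Or.inl rfl) other_inv h1 x (by omega) hmem

end Pool.Agent.Results.MP_edb5be_nt.SparseShifts
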